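import Pool.Graph.R_pool_sql_team_39128cda.H.MP_3bbc5b_al.Core

set_option autoImplicit false

namespace Pool.Agent.Results.MP_3bbc5b_al.Semiclassical

open Polynomial Pool.Agent.H.MP_3bbc5b_al

/-- `Im' Λ` for `Λ u = u' + (σ / π) u`: the polynomials `p` with `p = Λ u` for a polynomial `u`
(the equation is multiplied by `π`). -/
def Im {K : Type} [Field K] (π σ : K[X]) : Set K[X] :=
  {p | ∃ u : K[X], π * p = π * derivative u + σ * u}

/-- Mathieu subspace: if `f ^ m ∈ V` for all `m ≥ 1`, then `g * f ^ m ∈ V` for all large `m`. -/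
def Mathieu {K : Type} [Field K] (V : Set K[X]) : Prop :=
  ∀ f : K[X], (∀ m : ℕ, 1 ≤ m → f ^ m ∈ V) → ∀ g : K[X], ∃ N : ℕ, ∀ m : ℕ, N ≤ m → g * f ^ m ∈ V

/-- The radical of `V`: all `f` with `f ^ m ∈ V` for all sufficiently large `m`. -/
def radical {K : Type} [Field K] (V : Set K[X]) : Set K[X] :=
  {f | ∃ N : ℕ, ∀ m : ℕ, N ≤ m → f ^ m ∈ V}

/-- Non-resonance: no `k π' + σ` (`k = 0, 1, 2, …`) has a common root with `π`, and
`k π_{d+1} + σ_d ≠ 0` for all `k ≥ d + 1`, where `deg π ≤ d + 1` and `deg σ ≤ d`. -/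
structure NonRes {K : Type} [Field K] (π σ : K[X]) (d : ℕ) : Prop where
  ne : π ≠ 0
  loc : ∀ k : ℕ, IsCoprime π ((k : K[X]) * derivative π + σ)
  dπ : π.natDegree ≤ d + 1
  dσ : σ.natDegree ≤ d
  inf : ∀ k : ℕ, d + 1 ≤ k → (k : K) * π.coeff (d + 1) + σ.coeff d ≠ 0

variable {K : Type} [Field K]

theorem mem_iff {π σ : K[X]} {d : ℕ} (h : NonRes π σ d) (p : K[X]) :
    p ∈ Im π σ ↔ ∃ u, E π (derivative π + σ) u = p := by
  constructor
  · rintro ⟨g, hg⟩
    have h1 : π ∣ σ * g := ⟨p - derivative g, by rw [mul_sub, hg]; ring⟩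
    have h2 : IsCoprime π σ := by simpa using h.loc 0
    obtain ⟨u, rfl⟩ := h2.dvd_of_dvd_mul_left h1
    refine ⟨u, mul_left_cancel₀ h.ne ?_⟩
    rw [hg, E_apply, derivative_mul]
    ring
  · rintro ⟨u, rfl⟩
    refine ⟨π * u, ?_⟩
    rw [E_apply, derivative_mul]
    ring

theorem top {π σ : K[X]} {d : ℕ} (h : NonRes π σ d) : Top π (derivative π + σ) d where
  h1 := h.dπ
  h2 := (natDegree_add_le _ _).trans (max_le ((natDegree_derivative_le _).trans
    (by have := h.dπ; omega)) h.dσ)
  h3 k := by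
    have := h.inf (k + (d + 1)) (by omega)
    rw [coeff_add, coeff_derivative]
    push_cast at this
    exact fun e => this (by linear_combination e)

theorem all {π σ : K[X]} (h : NonRes π σ 0) : Im π σ = Set.univ :=
  Set.eq_univ_of_forall fun p => (mem_iff h p).2 ((top h).surj p)

theorem NonRes.map {π σ : K[X]} {d : ℕ} (h : NonRes π σ d) {L : Type} [Field L] (i : K →+* L) :
    NonRes (π.map i) (σ.map i) d where
  ne := (Polynomial.map_ne_zero_iff i.injective).2 h.ne
  loc k := by
    have := (h.loc k).map (mapRingHom i)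
    simpa [derivative_map] using this
  dπ := by rw [natDegree_map]; exact h.dπ
  dσ := by rw [natDegree_map]; exact h.dσ
  inf k hk := by
    rw [coeff_map, coeff_map, ← map_natCast i k, ← map_mul, ← map_add]
    exact (map_ne_zero i).2 (h.inf k hk)

theorem zero_of [CharZero K] {π σ f : K[X]} {d : ℕ} (h : NonRes π σ (d + 1))
    (hf : ∀ m : ℕ, 1 ≤ m → f ^ m ∈ Im π σ) : f = 0 := by
  let i := algebraMap K (AlgebraicClosure K)
  have h' := h.map i
  have hz : f.map i = 0 := by
    refine main (top h') (fun τ hτ k => ?_) fun m hm => ?_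
    · have hc := h'.loc (k + 1)
      intro e
      obtain ⟨a, b, hab⟩ := hc
      have := congrArg (eval τ) hab
      have hτ' : eval τ (π.map i) = 0 := hτ
      simp only [eval_add, eval_mul, eval_one, hτ', mul_zero, zero_add, eval_natCast] at this e
      push_cast at this
      rw [show ((k : AlgebraicClosure K) + 1) * eval τ (derivative (Polynomial.map i π)) +
        eval τ (Polynomial.map i σ) = 0 by linear_combination e, mul_zero] at this
      exact zero_ne_one this
    · obtain ⟨u, hu⟩ := (mem_iff h _).1 (hf m hm)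
      refine ⟨u.map i, ?_⟩
      rw [← Polynomial.map_pow, ← hu, E_apply, E_apply]
      simp [derivative_map]
  exact (Polynomial.map_eq_zero_iff i.injective).1 hz

theorem radical_eq [CharZero K] {π σ : K[X]} {d : ℕ} (h : NonRes π σ d) (hd : 1 ≤ d) :
    radical (Im π σ) = {0} := by
  obtain ⟨d, rfl⟩ := Nat.exists_eq_add_of_le' hd
  ext f
  rw [Set.mem_singleton_iff]
  constructor
  · rintro ⟨N, hN⟩
    have : f ^ (N + 1) = 0 := zero_of h fun m hm => by
      rw [← pow_mul]
      exact hN _ (by nlinarith)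
    exact pow_eq_zero_iff (by omega) |>.1 this
  · rintro rfl
    exact ⟨1, fun m hm => ⟨0, by simp [zero_pow (by omega : m ≠ 0)]⟩⟩

theorem mathieu [CharZero K] {π σ : K[X]} {d : ℕ} (h : NonRes π σ d) : Mathieu (Im π σ) := by
  intro f hf g
  rcases Nat.eq_zero_or_pos d with rfl | hd
  · exact ⟨0, fun m _ => by rw [all h]; trivial⟩
  · obtain ⟨d, rfl⟩ := Nat.exists_eq_add_of_le' hd
    obtain rfl := zero_of h hf
    exact ⟨1, fun m hm => ⟨0, by simp [zero_pow (by omega : m ≠ 0)]⟩⟩

theorem cop {a : K} {p : K[X]} (h : p.eval a ≠ 0) : IsCoprime (X - C a) p :=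
  (irreducible_X_sub_C a).coprime_iff_not_dvd.2 fun e => h (dvd_iff_isRoot.1 e)

theorem hermite [CharZero K] : NonRes (1 : K[X]) (-2 * X) 1 where
  ne := one_ne_zero
  loc k := isCoprime_one_left
  dπ := by simp
  dσ := by compute_degree
  inf k hk := by simp [coeff_one, coeff_X]

theorem laguerre [CharZero K] {α : K} (h : ∀ k : ℕ, α ≠ -k) : NonRes (X : K[X]) (C α - X) 1 where
  ne := X_ne_zero
  loc k := by
    have := cop (K := K) (a := 0) (p := (k : K[X]) * derivative X + (C α - X)) (by
      simp only [derivative_X, mul_one, eval_add, eval_natCast, eval_sub, eval_C, eval_X, sub_zero]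
      intro e
      exact h k (by linear_combination e))
    simpa using this
  dπ := by simp
  dσ := by compute_degree
  inf k hk := by simp [coeff_X]

theorem jacobi [CharZero K] {α β : K} (h : ∀ k : ℕ, α ≠ -k ∧ β ≠ -k)
    (h2 : ∀ k : ℕ, α + β + 2 ≠ -k) :
    NonRes (1 - X ^ 2 : K[X]) (C β * (1 - X) - C α * (1 + X)) 1 where
  ne e := by simpa using congrArg (eval 0) e
  loc k := by
    have e : (1 - X ^ 2 : K[X]) = -((X - C 1) * (X - C (-1))) := by simp; ring
    have hd : derivative (1 - X ^ 2 : K[X]) = -(2 * X) := by simp; norm_num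
    rw [hd]
    rw [e]
    refine IsCoprime.neg_left (IsCoprime.mul_left (cop ?_) (cop ?_))
    · simp only [eval_add, eval_mul, eval_natCast, eval_neg, eval_X, eval_sub, eval_C, eval_one,
        eval_ofNat]
      intro e
      refine (h k).1 ?_
      linear_combination (-1 / 2 : K) * e
    · simp only [eval_add, eval_mul, eval_natCast, eval_neg, eval_X, eval_sub, eval_C, eval_one,
        eval_ofNat]
      intro e
      refine (h k).2 ?_
      linear_combination (1 / 2 : K) * e
  dπ := by compute_degree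
  dσ := by compute_degree
  inf k hk := by
    obtain ⟨k, rfl⟩ := Nat.exists_eq_add_of_le' hk
    have h1 : (1 - X ^ 2 : K[X]).coeff (1 + 1) = -1 := by
      simp [coeff_one, coeff_X_pow]
    have h3 : (C β * (1 - X) - C α * (1 + X) : K[X]).coeff 1 = -(α + β) := by
      simp [coeff_one, mul_sub, mul_add, coeff_X]
      ring
    rw [h1, h3]
    intro e
    refine h2 k ?_
    push_cast at e
    linear_combination -e

theorem mathieu_of_all {V : Set K[X]} (h : ∀ p, p ∈ V) : Mathieu V :=
  fun _ _ _ => ⟨0, fun _ _ => h _⟩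

/-- **Semiclassical weights are Mathieu.** `K` is any field of characteristic zero. -/
theorem result (K : Type) [Field K] [CharZero K] :
    -- every operator `u' + (σ / π) u` without resonance
    (∀ (π σ : K[X]) (d : ℕ), NonRes π σ d →
      Mathieu (Im π σ) ∧ (d = 0 → Im π σ = Set.univ) ∧ (1 ≤ d → radical (Im π σ) = {0})) ∧
    -- Hermite
    radical (Im (1 : K[X]) (-2 * X)) = {0} ∧
    -- generalized Laguerre, `w' / w = (α - t) / t`
    (∀ α : K, (∀ k : ℕ, 1 ≤ k → α ≠ -k) →
      Mathieu (Im (X : K[X]) (C α - X)) ∧ (α ≠ 0 → radical (Im (X : K[X]) (C α - X)) = {0})) ∧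
    -- Jacobi, `w' / w = (β (1 - t) - α (1 + t)) / (1 - t ^ 2)`
    ∀ α β : K, (∀ k : ℕ, 1 ≤ k → α ≠ -k ∧ β ≠ -k ∧ α + β + 1 ≠ -k) →
      Mathieu (Im (1 - X ^ 2 : K[X]) (C β * (1 - X) - C α * (1 + X))) ∧
      (α ≠ 0 → β ≠ 0 →
        radical (Im (1 - X ^ 2 : K[X]) (C β * (1 - X) - C α * (1 + X))) = {0}) := by
  refine ⟨fun π σ d h => ⟨mathieu h, fun e => all (e ▸ h), radical_eq h⟩,
    radical_eq hermite le_rfl, fun α h => ?_, fun α β h => ?_⟩
  · rcases eq_or_ne α 0 with rfl | h0
    · refine ⟨mathieu_of_all fun p => ?_, fun e => absurd rfl e⟩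
      obtain ⟨u, rfl⟩ := (⟨by simp, by simp, fun k => by simp [coeff_one]⟩ :
        Top (1 : K[X]) (-1) 0).surj p
      exact ⟨u, by rw [E_apply]; simp; ring⟩
    · have hn : NonRes (X : K[X]) (C α - X) 1 := laguerre fun k => by
        rcases Nat.eq_zero_or_pos k with rfl | hk
        · simpa using h0
        · exact h k hk
      exact ⟨mathieu hn, fun _ => radical_eq hn le_rfl⟩
  · rcases eq_or_ne α 0 with rfl | h0
    · refine ⟨mathieu_of_all fun p => ?_, fun e => absurd rfl e⟩
      obtain ⟨u, rfl⟩ := (⟨by compute_degree, by compute_degree, fun k e => (h (k + 1) (by omega)).2.1 (by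
        simp [coeff_one, coeff_X] at e
        push_cast
        linear_combination e)⟩ :
          Top (1 + X : K[X]) (C β + 1) 0).surj p
      exact ⟨(1 + X) * u, by rw [E_apply]; simp; ring⟩
    rcases eq_or_ne β 0 with rfl | h1
    · refine ⟨mathieu_of_all fun p => ?_, fun _ e => absurd rfl e⟩
      obtain ⟨u, rfl⟩ := (⟨by compute_degree, by compute_degree, fun k e => (h (k + 1) (by omega)).1 (by
        simp [coeff_one, coeff_X] at e
        push_cast
        linear_combination -e)⟩ :
          Top (1 - X : K[X]) (-(C α + 1)) 0).surj p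
      exact ⟨(1 - X) * u, by rw [E_apply]; simp; ring⟩
    have hn : NonRes (1 - X ^ 2 : K[X]) (C β * (1 - X) - C α * (1 + X)) 1 := by
      refine jacobi (fun k => ?_) fun k e => ?_
      · rcases Nat.eq_zero_or_pos k with rfl | hk
        · simpa using And.intro h0 h1
        · exact ⟨(h k hk).1, (h k hk).2.1⟩
      · refine (h (k + 1) (by omega)).2.2 ?_
        push_cast
        linear_combination e
    exact ⟨mathieu hn, fun _ _ => radical_eq hn le_rfl⟩

end Pool.Agent.Results.MP_3bbc5b_al.Semiclassical
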